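import Pool.Agent.V11223.ZAM.Growth

/-!
# `ZAM(INDEX_n) = n^{o(1)}`

The conjecture `ZAM(INDEX_n) = Θ(n)` is false: matching vectors over `𝔽₂` and `𝔽₃` and the
characters of `𝔽₃` with values in `𝔽₄` give an unambiguous zero-information Arthur–Merlin
protocol for `INDEX_n` of cost `exp(O(√(log n · log log n)))`, and more generally for every
two-party function in which Bob has at most `n` inputs.
-/

namespace Pool.Agent.Results.MP_63af43_lc.SubexponentialZAM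

open V11223.ZAM Filter

/-- (1) Every two-party function `f : X × Y → {0,1}` with `|Y| ≤ n`, `n ≥ 16`, has an unambiguous
zero-information AM protocol of cost at most `exp(62 √(log n · log log n))`.
(2) In particular `INDEX_n` has such protocols and
`ZAM(INDEX_n) ≤ exp(62 √(log n · log log n))` for `n ≥ 16`.
(3) Hence `ZAM(INDEX_n) ≤ n^ε` for every `ε > 0` and all large `n`.
(4) The conjecture `ZAM(INDEX_n) = Θ(n)` is false. -/
theorem result :
    (∀ (X Y : Type) [Fintype Y] (f : X → Y → Bool) (n : ℕ), 16 ≤ n → Fintype.card Y ≤ n →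
      ∃ P : AMProtocol X Y, P.IsZAM f ∧
        (P.cost : ℝ) ≤ Real.exp (62 * Real.sqrt (Real.log n * Real.log (Real.log n)))) ∧
    (∀ n : ℕ, 16 ≤ n →
      (∃ P : AMProtocol (Fin n → Bool) (Fin n), P.IsZAM (INDEX n) ∧ P.cost = ZAM (INDEX n)) ∧
      (ZAM (INDEX n) : ℝ) ≤
        Real.exp (62 * Real.sqrt (Real.log n * Real.log (Real.log n)))) ∧
    (∀ ε : ℝ, 0 < ε → ∀ᶠ n : ℕ in atTop, (ZAM (INDEX n) : ℝ) ≤ (n : ℝ) ^ ε) ∧
    ¬ (fun n : ℕ => (ZAM (INDEX n) : ℝ)) =Θ[atTop] (fun n : ℕ => (n : ℝ)) := by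
  have h3 : ∀ ε : ℝ, 0 < ε → ∀ᶠ n : ℕ in atTop, (ZAM (INDEX n) : ℝ) ≤ (n : ℝ) ^ ε := by
    intro ε hε
    filter_upwards [eventually_le ε hε, eventually_ge_atTop 16] with n hn hn16
    exact (ZAM_bound (INDEX n) n hn16 (by simp)).trans hn
  refine ⟨fun X Y _ f n hn hY => main_bound f n hn hY, fun n hn => ⟨?_, ?_⟩, h3, ?_⟩
  · obtain ⟨P, hP, -⟩ := main_bound (INDEX n) n hn (by simp)
    exact Nat.sInf_mem (s := {c : ℕ | ∃ P : AMProtocol (Fin n → Bool) (Fin n),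
      P.IsZAM (INDEX n) ∧ P.cost = c}) ⟨_, P, hP, rfl⟩
  · exact ZAM_bound (INDEX n) n hn (by simp)
  · intro hΘ
    have h1 := hΘ.2
    rw [Asymptotics.isBigO_iff] at h1
    obtain ⟨c, hc⟩ := h1
    have h2 := h3 (1 / 2) (by norm_num)
    have h4 : Tendsto (fun n : ℕ => ((n : ℝ)) ^ (1 / 2 : ℝ)) atTop atTop :=
      (tendsto_rpow_atTop (by norm_num)).comp tendsto_natCast_atTop_atTop
    obtain ⟨n, hn1, hn2, hn3, hn4⟩ :=
      (hc.and (h2.and ((h4.eventually_gt_atTop (max c 0)).and (eventually_gt_atTop 0)))).exists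
    have hn0 : (0 : ℝ) < n := by exact_mod_cast hn4
    rw [Real.norm_of_nonneg hn0.le, Real.norm_of_nonneg (Nat.cast_nonneg _)] at hn1
    have h5 : (n : ℝ) ≤ max c 0 * (n : ℝ) ^ (1 / 2 : ℝ) := by
      calc (n : ℝ) ≤ c * (ZAM (INDEX n) : ℝ) := hn1
        _ ≤ max c 0 * (ZAM (INDEX n) : ℝ) :=
          mul_le_mul_of_nonneg_right (le_max_left _ _) (Nat.cast_nonneg _)
        _ ≤ max c 0 * (n : ℝ) ^ (1 / 2 : ℝ) :=
          mul_le_mul_of_nonneg_left hn2 (le_max_right _ _)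
    have h6 : (n : ℝ) = (n : ℝ) ^ (1 / 2 : ℝ) * (n : ℝ) ^ (1 / 2 : ℝ) := by
      rw [← Real.rpow_add hn0]; norm_num
    have h7 : (0 : ℝ) < (n : ℝ) ^ (1 / 2 : ℝ) := Real.rpow_pos_of_pos hn0 _
    have h8 : max c 0 * (n : ℝ) ^ (1 / 2 : ℝ) < (n : ℝ) ^ (1 / 2 : ℝ) * (n : ℝ) ^ (1 / 2 : ℝ) :=
      mul_lt_mul_of_pos_right hn3 h7
    linarith

end Pool.Agent.Results.MP_63af43_lc.SubexponentialZAM
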